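import Mathlib
import Pool.Agent.N321.KT.Defs

/-!
Leaf DEN of project KT (helper329).
-/

set_option autoImplicit false

open Filter Topology

namespace Pool.Agent.N329.KT.DEN

open Pool.Agent.N321.KT

lemma pd_an {ι : Type} [Fintype ι] [DecidableEq ι] (U : Set (ι → ℝ)) (i : ι)
    (f : (ι → ℝ) → ℝ) (hf : AnalyticOnNhd ℝ f U) : AnalyticOnNhd ℝ (pd i f) U := by
  have h1 := hf.fderiv
  exact (ContinuousLinearMap.apply ℝ ℝ (Pi.single i (1 : ℝ) : ι → ℝ)).comp_analyticOnNhd h1

lemma jet_an {ι : Type} [Fintype ι] [DecidableEq ι] (U : Set (ι → ℝ)) (w : List ι) :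
    ∀ f : (ι → ℝ) → ℝ, AnalyticOnNhd ℝ f U → AnalyticOnNhd ℝ (fun x => jet f x w) U := by
  induction w with
  | nil => intro f hf; exact hf
  | cons i w ih => intro f hf; exact ih (pd i f) (pd_an U i f hf)

theorem t : S_DEN := by
  intro ι _ _ r P U K x₀ hU hUc hK hx₀ hne V hV hVne hVU
  by_contra hcon
  push Not at hcon
  have hF : AnalyticOnNhd ℝ (fun x =>
      MvPolynomial.eval (fun q : ι × ι × List ι =>
        r ^ q.2.2.length * jet (fun y => K y q.1 q.2.1) x q.2.2) P) U := by
    clear hne hcon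
    induction P using MvPolynomial.induction_on with
    | C a =>
      simp only [MvPolynomial.eval_C]
      exact analyticOnNhd_const
    | add p q hp hq =>
      simp only [map_add]
      exact hp.add hq
    | mul_X p q hp =>
      simp only [map_mul, MvPolynomial.eval_X]
      exact hp.mul (analyticOnNhd_const.mul (jet_an U q.2.2 _ (hK q.1 q.2.1)))
  obtain ⟨y, hy⟩ := hVne
  have h0 := hF.eqOn_zero_of_preconnected_of_eventuallyEq_zero hUc (hVU hy)
    (by
      filter_upwards [hV.mem_nhds hy] with x hx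
      exact hcon x hx)
  exact hne (h0 hx₀)

end Pool.Agent.N329.KT.DEN
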